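import Mathlib

/-!
# MP_06047d_an: the conjectured inclusion for the set of periods fails for every `k ≥ 5`

For every `k ≥ 5` the solution with initial values `-1, 1, 0, …, 0` is periodic with least period
`11 k - 1`.  For `k = 5` this is `54 = 2 · 13 + 2 · 14` and for `k ≥ 7` the number `11 k - 1` is not of the
form `(3k-2) a + (3k-1) b` with `a, b ≥ 1` at all.  For `k = 6` the sequence `0, 0, 1, 1, 0, 0, 1, 1, …` is a
solution of period `4`.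
-/

set_option autoImplicit false

namespace Pool.Agent.Results.MP_06047d_an.InclusionFails

/-- `x` satisfies `x_{n+k} = max{x_{n+k-1}, …, x_{n+1}, 0} - x_n` for all `n` (indices from `0`). -/
def IsSolution (k : ℕ) (x : ℕ → ℝ) : Prop :=
  ∀ n : ℕ, x (n + k) = (Finset.Ico 1 k).fold max 0 (fun i => x (n + i)) - x n

/-- The set of (least) periods of the periodic solutions. -/
def Per (k : ℕ) : Set ℕ :=
  {N | ∃ x : ℕ → ℝ, IsSolution k x ∧ IsLeast {M : ℕ | 0 < M ∧ ∀ n, x (n + M) = x n} N}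

/-- The set on the right hand side of the conjectured inclusion. -/
def Conjectured (k : ℕ) : Set ℕ :=
  {N | N = 1 ∨ (N : ℝ) = 1 / 2 * (3 - (-1) ^ k) ∨ N = 2 * k ∨ N = 3 * k - 1 ∨
    ∃ a b : ℕ, 1 ≤ a ∧ 1 ≤ b ∧ Nat.gcd a b = 1 ∧ N = (3 * k - 2) * a + (3 * k - 1) * b}

/-- One period (and a bit more) of the solution starting with `-1, 1, 0, …, 0`. -/
def v (k n : ℕ) : ℤ :=
  if n = 0 ∨ n = 3 * k - 1 ∨ n = 5 * k + 1 ∨ n = 8 * k ∨ n = 11 * k - 1 then -1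
  else if n = k ∨ (k + 2 ≤ n ∧ n ≤ 2 * k - 1) ∨ n = 4 * k - 1 ∨ n = 4 * k + 1 ∨
      (6 * k + 1 ≤ n ∧ n ≤ 7 * k - 2) ∨ n = 7 * k ∨ n = 9 * k ∨ n = 10 * k - 1 then 2
  else if n = 1 ∨ n = k + 1 ∨ n = 2 * k + 1 ∨ n = 3 * k ∨ (3 * k + 2 ≤ n ∧ n ≤ 4 * k - 2) ∨
      n = 4 * k ∨ (4 * k + 2 ≤ n ∧ n ≤ 5 * k - 2) ∨ n = 5 * k ∨ n = 6 * k - 1 ∨ n = 7 * k - 1 ∨
      n = 8 * k - 1 ∨ (8 * k + 1 ≤ n ∧ n ≤ 9 * k - 2) ∨ (9 * k + 1 ≤ n ∧ n ≤ 10 * k - 2) ∨
      (10 * k + 1 ≤ n ∧ n ≤ 11 * k - 2) ∨ n = 11 * k then 1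
  else 0

/-- The maxima. -/
def mx (k n : ℕ) : ℤ :=
  if (1 ≤ n ∧ n ≤ 2 * k - 2) ∨ (3 * k ≤ n ∧ n ≤ 4 * k) ∨ (5 * k + 2 ≤ n ∧ n ≤ 7 * k - 1) ∨
    (8 * k + 1 ≤ n ∧ n ≤ 10 * k - 2) then 2 else 1

lemma v_add (k n : ℕ) (hk : 5 ≤ k) (hn : n < 11 * k - 1) : v k (n + k) = mx k n - v k n := by
  rcases (by omega : n < 2 * k ∨ (2 * k ≤ n ∧ n < 4 * k) ∨ (4 * k ≤ n ∧ n < 6 * k) ∨
    (6 * k ≤ n ∧ n < 8 * k) ∨ (8 * k ≤ n ∧ n < 10 * k) ∨ 10 * k ≤ n) with h | h | h | h | h | h <;>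
  · unfold v mx
    split_ifs <;> omega

lemma v_le (k n m : ℕ) (hk : 5 ≤ k) (hn : n < 11 * k - 1) (h1 : n < m) (h2 : m < n + k) :
    v k m ≤ mx k n := by
  unfold v mx
  split_ifs <;> omega

lemma le_v (k n : ℕ) (hk : 5 ≤ k) (hn : n < 11 * k - 1) :
    ∃ i, 1 ≤ i ∧ i < k ∧ mx k n ≤ v k (n + i) := by
  suffices h : ∃ m, n < m ∧ m < n + k ∧ mx k n ≤ v k m by
    obtain ⟨m, h1, h2, h3⟩ := h
    exact ⟨m - n, by omega, by omega, by rwa [show n + (m - n) = m by omega]⟩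
  rcases (by omega : n = 0 ∨ (1 ≤ n ∧ n ≤ k - 1) ∨ (k ≤ n ∧ n ≤ 2 * k - 2) ∨
    (2 * k - 1 ≤ n ∧ n ≤ 2 * k) ∨ (2 * k + 1 ≤ n ∧ n ≤ 3 * k - 1) ∨
    (3 * k ≤ n ∧ n ≤ 4 * k - 2) ∨ (4 * k - 1 ≤ n ∧ n ≤ 4 * k) ∨
    (4 * k + 1 ≤ n ∧ n ≤ 5 * k - 1) ∨ (5 * k ≤ n ∧ n ≤ 5 * k + 1) ∨
    (5 * k + 2 ≤ n ∧ n ≤ 6 * k) ∨ (6 * k + 1 ≤ n ∧ n ≤ 7 * k - 1) ∨
    (7 * k ≤ n ∧ n ≤ 8 * k - 2) ∨ (8 * k - 1 ≤ n ∧ n ≤ 8 * k) ∨
    (8 * k + 1 ≤ n ∧ n ≤ 9 * k - 1) ∨ (9 * k ≤ n ∧ n ≤ 10 * k - 2) ∨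
    (10 * k - 1 ≤ n ∧ n ≤ 10 * k) ∨ (10 * k + 1 ≤ n ∧ n ≤ 11 * k - 2)) with
    h | h | h | h | h | h | h | h | h | h | h | h | h | h | h | h | h
  · obtain ⟨m, hm⟩ : ∃ m, m = 1 := ⟨_, rfl⟩
    refine ⟨m, by omega, by omega, ?_⟩
    unfold v mx; split_ifs <;> omega
  · obtain ⟨m, hm⟩ : ∃ m, m = k := ⟨_, rfl⟩
    refine ⟨m, by omega, by omega, ?_⟩
    unfold v mx; split_ifs <;> omega
  · obtain ⟨m, hm⟩ : ∃ m, m = 2 * k - 1 := ⟨_, rfl⟩
    refine ⟨m, by omega, by omega, ?_⟩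
    unfold v mx; split_ifs <;> omega
  · obtain ⟨m, hm⟩ : ∃ m, m = 2 * k + 1 := ⟨_, rfl⟩
    refine ⟨m, by omega, by omega, ?_⟩
    unfold v mx; split_ifs <;> omega
  · obtain ⟨m, hm⟩ : ∃ m, m = 3 * k := ⟨_, rfl⟩
    refine ⟨m, by omega, by omega, ?_⟩
    unfold v mx; split_ifs <;> omega
  · obtain ⟨m, hm⟩ : ∃ m, m = 4 * k - 1 := ⟨_, rfl⟩
    refine ⟨m, by omega, by omega, ?_⟩
    unfold v mx; split_ifs <;> omega
  · obtain ⟨m, hm⟩ : ∃ m, m = 4 * k + 1 := ⟨_, rfl⟩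
    refine ⟨m, by omega, by omega, ?_⟩
    unfold v mx; split_ifs <;> omega
  · obtain ⟨m, hm⟩ : ∃ m, m = 5 * k := ⟨_, rfl⟩
    refine ⟨m, by omega, by omega, ?_⟩
    unfold v mx; split_ifs <;> omega
  · obtain ⟨m, hm⟩ : ∃ m, m = 6 * k - 1 := ⟨_, rfl⟩
    refine ⟨m, by omega, by omega, ?_⟩
    unfold v mx; split_ifs <;> omega
  · obtain ⟨m, hm⟩ : ∃ m, m = 6 * k + 1 := ⟨_, rfl⟩
    refine ⟨m, by omega, by omega, ?_⟩
    unfold v mx; split_ifs <;> omega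
  · obtain ⟨m, hm⟩ : ∃ m, m = 7 * k := ⟨_, rfl⟩
    refine ⟨m, by omega, by omega, ?_⟩
    unfold v mx; split_ifs <;> omega
  · obtain ⟨m, hm⟩ : ∃ m, m = 8 * k - 1 := ⟨_, rfl⟩
    refine ⟨m, by omega, by omega, ?_⟩
    unfold v mx; split_ifs <;> omega
  · obtain ⟨m, hm⟩ : ∃ m, m = 8 * k + 1 := ⟨_, rfl⟩
    refine ⟨m, by omega, by omega, ?_⟩
    unfold v mx; split_ifs <;> omega
  · obtain ⟨m, hm⟩ : ∃ m, m = 9 * k := ⟨_, rfl⟩
    refine ⟨m, by omega, by omega, ?_⟩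
    unfold v mx; split_ifs <;> omega
  · obtain ⟨m, hm⟩ : ∃ m, m = 10 * k - 1 := ⟨_, rfl⟩
    refine ⟨m, by omega, by omega, ?_⟩
    unfold v mx; split_ifs <;> omega
  · obtain ⟨m, hm⟩ : ∃ m, m = 10 * k + 1 := ⟨_, rfl⟩
    refine ⟨m, by omega, by omega, ?_⟩
    unfold v mx; split_ifs <;> omega
  · obtain ⟨m, hm⟩ : ∃ m, m = 11 * k := ⟨_, rfl⟩
    refine ⟨m, by omega, by omega, ?_⟩
    unfold v mx; split_ifs <;> omega

lemma v_wrap (k r : ℕ) (hk : 5 ≤ k) (hr : r < k) : v k (11 * k - 1 + r) = v k r := by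
  obtain ⟨m, hm⟩ : ∃ m, m = 11 * k - 1 + r := ⟨_, rfl⟩
  rw [← hm]
  unfold v; split_ifs <;> omega

lemma v_mod (k n i : ℕ) (hk : 5 ≤ k) (hi : i ≤ k) :
    v k ((n + i) % (11 * k - 1)) = v k (n % (11 * k - 1) + i) := by
  have hP : 0 < 11 * k - 1 := by omega
  have hr : n % (11 * k - 1) < 11 * k - 1 := Nat.mod_lt _ hP
  rw [← Nat.mod_add_mod]
  generalize n % (11 * k - 1) = r at hr
  rcases lt_or_ge (r + i) (11 * k - 1) with h | h
  · rw [Nat.mod_eq_of_lt h]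
  · obtain ⟨s, hs⟩ : ∃ s, r + i = 11 * k - 1 + s := ⟨r + i - (11 * k - 1), by omega⟩
    have hs1 : s < k := by omega
    rw [hs, v_wrap k s hk hs1, Nat.add_mod_left, Nat.mod_eq_of_lt (by omega)]

/-- The periodic solution starting with `-1, 1, 0, …, 0`. -/
noncomputable def X (k n : ℕ) : ℝ := (v k (n % (11 * k - 1)) : ℝ)

lemma X_sol (k : ℕ) (hk : 5 ≤ k) : IsSolution k (X k) := by
  intro n
  have hP : 0 < 11 * k - 1 := by omega
  have hr : n % (11 * k - 1) < 11 * k - 1 := Nat.mod_lt _ hP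
  have e : ∀ i, i ≤ k → X k (n + i) = (v k (n % (11 * k - 1) + i) : ℝ) := fun i hi => by
    unfold X; rw [v_mod k n i hk hi]
  have e0 : X k n = (v k (n % (11 * k - 1)) : ℝ) := rfl
  rw [e k le_rfl, e0]
  generalize n % (11 * k - 1) = r at hr e
  have hmx : (0 : ℤ) ≤ mx k r := by unfold mx; split_ifs <;> omega
  have hfold : (Finset.Ico 1 k).fold max 0 (fun i => X k (n + i)) = (mx k r : ℝ) := by
    apply le_antisymm
    · rw [Finset.fold_max_le]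
      refine ⟨by exact_mod_cast hmx, fun i hi => ?_⟩
      rw [Finset.mem_Ico] at hi
      rw [e i hi.2.le]
      exact_mod_cast v_le k r (r + i) hk hr (by omega) (by omega)
    · rw [Finset.le_fold_max]
      obtain ⟨i, h1, h2, h3⟩ := le_v k r hk hr
      refine Or.inr ⟨i, Finset.mem_Ico.2 ⟨h1, h2⟩, ?_⟩
      rw [e i h2.le]
      exact_mod_cast h3
  rw [hfold, v_add k r hk hr]
  push_cast
  ring

lemma v_one (k n : ℕ) (hk : 5 ≤ k) (hn : n = 1 ∨ n = 3 * k + 2 ∨ n = 8 * k + 2) : v k n = 1 := by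
  unfold v; split_ifs <;> omega

lemma v_zero (k n : ℕ) (hk : 5 ≤ k) (hn : n = 2 ∨ n = 3 ∨ n = 5 * k + 2) : v k n = 0 := by
  unfold v; split_ifs <;> omega

lemma v_start (k : ℕ) : v k 0 = -1 := by simp [v]

lemma X_period (k : ℕ) (hk : 5 ≤ k) :
    IsLeast {M : ℕ | 0 < M ∧ ∀ n, X k (n + M) = X k n} (11 * k - 1) := by
  constructor
  · refine ⟨by omega, fun n => ?_⟩
    unfold X
    rw [Nat.add_mod_right]
  · rintro M ⟨hM0, hM⟩
    by_contra hlt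
    push Not at hlt
    have hv : ∀ j, j + M < 11 * k - 1 → v k (j + M) = v k j := by
      intro j hj
      have := hM j
      unfold X at this
      rw [Nat.mod_eq_of_lt hj, Nat.mod_eq_of_lt (by omega)] at this
      exact_mod_cast this
    have h0 := hv 0 (by omega)
    rw [v_start, zero_add] at h0
    have hpos : M = 3 * k - 1 ∨ M = 5 * k + 1 ∨ M = 8 * k := by
      unfold v at h0
      split_ifs at h0 <;> omega
    rcases hpos with rfl | rfl | rfl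
    · have h1 := hv 3 (by omega)
      have h2 := v_one k (3 + (3 * k - 1)) hk (by omega)
      have h3 := v_zero k 3 hk (by omega)
      omega
    · have h1 := hv 1 (by omega)
      have h2 := v_zero k (1 + (5 * k + 1)) hk (by omega)
      have h3 := v_one k 1 hk (by omega)
      omega
    · have h1 := hv 2 (by omega)
      have h2 := v_one k (2 + 8 * k) hk (by omega)
      have h3 := v_zero k 2 hk (by omega)
      omega

lemma parity_ne (k N : ℕ) (hN : 3 ≤ N) : (N : ℝ) ≠ 1 / 2 * (3 - (-1) ^ k) := by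
  have h3 : (3 : ℝ) ≤ N := by exact_mod_cast hN
  rcases neg_one_pow_eq_or ℝ k with h | h <;> rw [h] <;> intro h' <;> linarith

lemma not_mem (k : ℕ) (hk : 5 ≤ k) (hk6 : k ≠ 6) : 11 * k - 1 ∉ Conjectured k := by
  rintro (h | h | h | h | ⟨a, b, ha, hb, hab, h⟩)
  · omega
  · exact parity_ne k (11 * k - 1) (by omega) h
  · omega
  · omega
  · obtain ⟨c, rfl⟩ : ∃ c, k = c + 5 := ⟨k - 5, by omega⟩
    have h1 : 11 * (c + 5) - 1 = 11 * c + 54 := by omega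
    have h2 : 3 * (c + 5) - 2 = 3 * c + 13 := by omega
    have h3 : 3 * (c + 5) - 1 = 3 * c + 14 := by omega
    rw [h1, h2, h3] at h
    -- `s = a + b` is at most `4`
    have hs : a + b ≤ 4 := by
      by_contra hcon
      push Not at hcon
      have : 5 * (3 * c + 13) ≤ (3 * c + 13) * a + (3 * c + 14) * b := by nlinarith
      omega
    have ha4 : a ≤ 3 := by omega
    have hb4 : b ≤ 3 := by omega
    interval_cases a <;> interval_cases b <;> first | omega | (simp at hab)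

/-- The solution `0, 0, 1, 1, 0, 0, 1, 1, …` for `k = 6`. -/
def w (n : ℕ) : ℤ := if n % 4 < 2 then 0 else 1

lemma w_mod (n i : ℕ) : w (n + i) = w (n % 4 + i) := by
  unfold w
  have : (n + i) % 4 = (n % 4 + i) % 4 := by omega
  rw [this]

lemma six : 4 ∈ Per 6 := by
  refine ⟨fun n => (w n : ℝ), ?_, ⟨⟨by norm_num, ?_⟩, ?_⟩⟩
  · intro n
    have hr : n % 4 < 4 := Nat.mod_lt _ (by norm_num)
    have e : ∀ i, w (n + i) = w (n % 4 + i) := w_mod n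
    have e0 : w n = w (n % 4) := e 0
    simp only [e, e0]
    generalize n % 4 = r at hr
    have hfold : (Finset.Ico 1 6).fold max 0 (fun i => (w (r + i) : ℝ)) = 1 := by
      apply le_antisymm
      · rw [Finset.fold_max_le]
        refine ⟨zero_le_one, fun i _ => ?_⟩
        have : w (r + i) ≤ 1 := by unfold w; split_ifs <;> norm_num
        exact_mod_cast this
      · rw [Finset.le_fold_max]
        right
        interval_cases r
        · exact ⟨2, by simp, by norm_num [w]⟩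
        · exact ⟨1, by simp, by norm_num [w]⟩
        · exact ⟨1, by simp, by norm_num [w]⟩
        · exact ⟨3, by simp, by norm_num [w]⟩
    rw [hfold]
    interval_cases r <;> norm_num [w]
  · intro n
    have : w (n + 4) = w n := by
      unfold w
      rw [Nat.add_mod_right]
    show (w (n + 4) : ℝ) = (w n : ℝ)
    rw [this]
  · rintro M ⟨hM0, hM⟩
    by_contra hlt
    push Not at hlt
    have h0 := hM 0
    have h1 := hM 1
    simp only [zero_add] at h0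
    interval_cases M
    · norm_num [w] at h1
    · norm_num [w] at h0
    · norm_num [w] at h0

lemma six_not_mem : 4 ∉ Conjectured 6 := by
  rintro (h | h | h | h | ⟨a, b, ha, hb, hab, h⟩)
  · omega
  · exact parity_ne 6 4 (by norm_num) (by exact_mod_cast h)
  · omega
  · omega
  · omega

/-- For every `k ≥ 5` the set of periods `Per(F_k)` is not contained in the conjectured set. -/
theorem result : ∀ k : ℕ, 5 ≤ k → ¬ Per k ⊆ Conjectured k := by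
  intro k hk hsub
  rcases eq_or_ne k 6 with rfl | hk6
  · exact six_not_mem (hsub six)
  · exact not_mem k hk hk6 (hsub ⟨X k, X_sol k hk, X_period k hk⟩)

end Pool.Agent.Results.MP_06047d_an.InclusionFails
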